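import Pool.Agent.helper76.DP.Spec

set_option autoImplicit false

namespace Pool.Agent.DP

open Finset
open Pool.Agent.FR (mean Eig)

theorem OMA : OMA_stmt := by
  intro Q a b _ h ha hb
  classical
  have hφ : (0 : ℝ) < (Nat.totient Q : ℝ) := by
    exact_mod_cast Nat.totient_pos.mpr (Nat.pos_of_ne_zero (NeZero.ne Q))
  have hcard : (Fintype.card ((ZMod Q)ˣ × (ZMod Q)ˣ) : ℝ) = (Nat.totient Q : ℝ) ^ 2 := by
    rw [Fintype.card_prod, ZMod.card_units_eq_totient]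
    push_cast
    ring
  have hfib : ∀ κ : ZMod Q, ∑ p : (ZMod Q)ˣ × (ZMod Q)ˣ with (a : ZMod Q) * p.1 - b * p.2 = κ,
      om a b Q p.1 p.2 * h ((a : ZMod Q) * p.1 - b * p.2) =
      (if 0 < Nu Q a b κ then (Nat.totient Q : ℝ) ^ 2 / (dn a b * Q) * h κ else 0) := by
    intro κ
    have h1 : ∑ p : (ZMod Q)ˣ × (ZMod Q)ˣ with (a : ZMod Q) * p.1 - b * p.2 = κ,
        om a b Q p.1 p.2 * h ((a : ZMod Q) * p.1 - b * p.2) =
        ∑ p : (ZMod Q)ˣ × (ZMod Q)ˣ with (a : ZMod Q) * p.1 - b * p.2 = κ,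
          (Nat.totient Q : ℝ) ^ 2 / (dn a b * Q * Nu Q a b κ) * h κ := by
      refine Finset.sum_congr rfl fun p hp => ?_
      rw [Finset.mem_filter] at hp
      unfold om
      rw [hp.2]
    rw [h1, Finset.sum_const, nsmul_eq_mul]
    have h2 : (#{p : (ZMod Q)ˣ × (ZMod Q)ˣ | (a : ZMod Q) * p.1 - b * p.2 = κ} : ℝ) = (Nu Q a b κ : ℝ) := by
      unfold Nu
      norm_cast
    rw [h2]
    split_ifs with h3
    · have h4 : (Nu Q a b κ : ℝ) ≠ 0 := by
        have : (0 : ℝ) < (Nu Q a b κ : ℝ) := by exact_mod_cast h3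
        exact this.ne'
      rw [← div_div]
      field_simp
    · have h4 : (Nu Q a b κ : ℝ) = 0 := by
        have : Nu Q a b κ = 0 := by omega
        rw [this]
        simp
      rw [h4, zero_mul]
  unfold mean
  rw [hcard, ← Finset.sum_fiberwise univ (fun p : (ZMod Q)ˣ × (ZMod Q)ˣ => (a : ZMod Q) * p.1 - b * p.2)]
  rw [Finset.sum_congr rfl (fun κ _ => hfib κ), ← Finset.sum_filter, ← Finset.mul_sum]
  field_simp

end Pool.Agent.DP
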